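import Pool.Agent.W808.KC.All
import Pool.Agent.Q292.Legs.AmpC

/-!
Critical bond percolation on the square lattice in the half-infinite strip
`{(x, y) : y ≤ x, -1 ≤ x + y ≤ 2 n + 1}` (free boundary), whose flat end is the segment from the corner
`(0, 0)` to the corner `(n, n)`: the sharp asymptotics, with the value of the constant, of the
probability that the two corners are connected, and of the probability that they are joined by
several disjoint clusters.
-/

set_option autoImplicit false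

namespace Pool.Agent.Results.MP_35f495_pr.CornerConnections

open MeasureTheory Filter Topology

/-- Vertices of the square lattice. -/
abbrev Vertex := ℤ × ℤ

/-- Edges: `(x, y, true)` joins `(x, y)` to `(x + 1, y)` and `(x, y, false)` joins `(x, y)` to
`(x, y + 1)`. -/
abbrev Edge := ℤ × ℤ × Bool

/-- First endpoint of an edge. -/
def src (e : Edge) : Vertex := (e.1, e.2.1)

/-- Second endpoint of an edge. -/
def tgt (e : Edge) : Vertex := if e.2.2 then (e.1 + 1, e.2.1) else (e.1, e.2.1 + 1)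

/-- Critical bond percolation: every edge is open (`true`) with probability `1/2`, independently. -/
noncomputable def perc : Measure (Edge → Bool) :=
  Measure.infinitePi (fun _ : Edge => (PMF.uniformOfFintype Bool).toMeasure)

/-- The half-infinite strip. -/
def Strip (n : ℕ) (v : Vertex) : Prop := v.2 ≤ v.1 ∧ -1 ≤ v.1 + v.2 ∧ v.1 + v.2 ≤ 2 * n + 1

/-- `u` and `v` are the two endpoints of an open edge of the strip. -/
def Adj (n : ℕ) (ω : Edge → Bool) (u v : Vertex) : Prop :=
  ∃ e : Edge, ω e = true ∧ Strip n (src e) ∧ Strip n (tgt e) ∧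
    ((src e = u ∧ tgt e = v) ∨ (src e = v ∧ tgt e = u))

/-- `u` and `v` are joined by an open path of the strip. -/
def Conn (n : ℕ) (ω : Edge → Bool) : Vertex → Vertex → Prop := Relation.ReflTransGen (Adj n ω)

/-- The `m` leg event. The `m / 2` vertices `(i, i)`, `i < m / 2`, at the first corner are in different
clusters of the strip and each of them is connected to one of the `m / 2` vertices `(n - j, n - j)`,
`j < m / 2`, at the second corner; if `m` is odd, these clusters moreover do not contain any other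
vertex of the flat end. For `m = 2` this is the event that the corners `(0, 0)` and `(n, n)` are
connected. -/
def Legs (n m : ℕ) (ω : Edge → Bool) : Prop :=
  (∀ i j : ℕ, i < m / 2 → j < m / 2 → i ≠ j → ¬ Conn n ω ((i : ℤ), (i : ℤ)) ((j : ℤ), (j : ℤ))) ∧
  (∀ i : ℕ, i < m / 2 → ∃ j : ℕ, j < m / 2 ∧
    Conn n ω ((i : ℤ), (i : ℤ)) ((n : ℤ) - j, (n : ℤ) - j)) ∧
  (m % 2 = 1 → ∀ i j : ℕ, i < m / 2 → m / 2 ≤ j → j + m / 2 ≤ n →
    ¬ Conn n ω ((i : ℤ), (i : ℤ)) ((j : ℤ), (j : ℤ)))

theorem mem_strip {n : ℕ} {e : Edge} :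
    Strip n (src e) ∧ Strip n (tgt e) ↔ e ∈ Pool.Agent.W808.KC.Ss n := by
  obtain ⟨x, y, b⟩ := e
  unfold Strip Pool.Agent.W808.KC.Ss H906.Cyl.dco
  cases b
  · simp only [src, tgt, Bool.false_eq_true, if_false, Set.mem_ofPred_eq]
    omega
  · simp only [src, tgt, if_true, Set.mem_ofPred_eq]
    omega

theorem conn_eq (n : ℕ) (ω : Edge → Bool) :
    Conn n ω = H974.Reach ({e | ω e = true} ∩ Pool.Agent.W808.KC.Ss n) := by
  funext u v
  have h : Adj n ω = H974.Adj ({e | ω e = true} ∩ Pool.Agent.W808.KC.Ss n) := by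
    funext u v
    apply propext
    constructor
    · rintro ⟨e, h1, h2, h3, h4⟩
      exact ⟨e, ⟨h1, mem_strip.1 ⟨h2, h3⟩⟩, h4⟩
    · rintro ⟨e, ⟨h1, h2⟩, h4⟩
      exact ⟨e, h1, (mem_strip.2 h2).1, (mem_strip.2 h2).2, h4⟩
  unfold Conn H974.Reach
  rw [h]

theorem legs_eq (n m : ℕ) (ω : Edge → Bool) :
    Legs n m ω ↔ Pool.Agent.W808.KC.P0 n m {e | ω e = true} := by
  unfold Legs Pool.Agent.W808.KC.P0 Pool.Agent.W808.KC.cv Pool.Agent.W808.KC.cw
  rw [conn_eq]

/-- **Connection of the two corners.** For every `m ≥ 2`, as the width of the strip tends to infinity,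
`(2 n + 2) ^ (2 m (m - 1) / 3)` times the probability of the `m` leg event converges to
`∏_{1 ≤ k < m} (2 k)! / Γ(1 + 2 k / 3)`. For `m = 2`:
`(2 n + 2) ^ (4 / 3) P((0, 0) ↔ (n, n)) → 2 / Γ(5 / 3)`. -/
theorem result (m : ℕ) (hm : 2 ≤ m) :
    Tendsto (fun n : ℕ => ((2 * n + 2 : ℕ) : ℝ) ^ (2 * (m : ℝ) * (m - 1) / 3) *
      perc.real {ω | Legs n m ω}) atTop
      (𝓝 (∏ k ∈ Finset.Ico 1 m, ((2 * k).factorial : ℝ) / Real.Gamma (1 + 2 * (k : ℝ) / 3))) := by
  have hlaw : ∀ n : ℕ, m ≤ n + 1 →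
      perc.real {ω | Legs n m ω} = Pool.Agent.W808.KC.Pk m (n + 1 - m) := by
    intro n hn
    have e : {ω | Legs n m ω} = {ω | Pool.Agent.W808.KC.P0 n m {e | ω e = true}} := by
      ext ω
      exact legs_eq n m ω
    rw [e]
    exact Pool.Agent.W808.KC.a_INF n m hm hn
  obtain ⟨k, rfl⟩ : ∃ k, m = k + 1 := ⟨m - 1, by omega⟩
  have hprod : ∏ j ∈ Finset.Ico 1 (k + 1), ((2 * j).factorial : ℝ) / Real.Gamma (1 + 2 * (j : ℝ) / 3) =
      ∏ j ∈ Finset.range k, Q292.Legs.Cr.amp (j + 1) := by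
    rw [Finset.prod_Ico_eq_prod_range, Nat.add_sub_cancel]
    refine Finset.prod_congr rfl fun j _ => ?_
    rw [add_comm 1 j]
    rfl
  rw [hprod, ← tendsto_add_atTop_iff_nat k]
  refine (Q292.Legs.Cr.main k).congr fun N => ?_
  rw [hlaw (N + k) (by omega), show N + k + 1 - (k + 1) = N by omega,
    show 2 * (k + 1 + N) = 2 * (N + k) + 2 by ring]
  congr 2
  push_cast
  ring

end Pool.Agent.Results.MP_35f495_pr.CornerConnections
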