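import Pool.Agent.Q292.Env.Final

/-!
# Cardy's formula in layered environments, and the exact independence of the crossing event

Bond percolation on `ℤ²` in the slit strips, with independent edges. The horizontal edges of the layer
`s` (the edges which join the heights `s` and `s + 1`) are open with probability `h s`, the vertical
edges of the layer with probability `1 - h s` (each layer is on the critical line), where
`h (2n+1) = 1 - h (2n)`; the environment `h` is otherwise arbitrary, and it may be different on the
right of the slit. For `h = 1/2` this is critical bond percolation on `ℤ²`.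

The crossing probability of the slit strip is exactly the same in all environments, it is given by an
explicit formula, and Cardy's formula holds with a rate which does not depend on the environment.
For critical percolation (`p = 1/2`) this is equivalent to an exact independence: the crossing event is
independent of the differences of the anisotropies of the two layers of all the double layers.

Coordinates: the column of the vertex `(u,v)` of `ℤ²` is `u - v`, its height is `u + v` (rotation by
45 degrees).
-/

set_option autoImplicit false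

namespace Pool.Agent.Results.MP_35f495_pr.ExactUniversality

open MeasureTheory ProbabilityTheory Filter Topology unitInterval

/-- Edges of `ℤ²`: `(u,v,false)` joins `(u,v)` and `(u+1,v)` (horizontal edge); `(u,v,true)` joins
`(u,v)` and `(u,v+1)` (vertical edge). Both join the heights `u + v` and `u + v + 1`. -/
abbrev Edge := ℤ × ℤ × Bool

/-- configurations (`true` = open) -/
abbrev Conf := Edge → Bool

/-- `x` and `y` are the two ends of an open edge -/
def OpenAdj (ω : Conf) (x y : ℤ × ℤ) : Prop :=
  (y = (x.1 + 1, x.2) ∧ ω (x.1, x.2, false) = true) ∨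
  (x = (y.1 + 1, y.2) ∧ ω (y.1, y.2, false) = true) ∨
  (y = (x.1, x.2 + 1) ∧ ω (x.1, x.2, true) = true) ∨
  (x = (y.1, y.2 + 1) ∧ ω (y.1, y.2, true) = true)

/-- bond percolation with independent edges: the edge `e` is open with probability `p e` -/
noncomputable def perc (p : Edge → I) : Measure Conf :=
  Measure.infinitePi (fun e : Edge => bernoulliMeasure true false (p e))

/-- the parameter `1/2` -/
noncomputable def half : I := ⟨1/2, by norm_num, by norm_num⟩

/-- Open edges of the slit strip: both ends have their column in `[-a, b+1]`; the edges between the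
columns `0` and `1` with both ends at height `≥ 0` (those which cross the slit) are removed. -/
def SAdj (a b : ℕ) (ω : Conf) (x y : ℤ × ℤ) : Prop :=
  OpenAdj ω x y ∧ -(a:ℤ) ≤ x.1 - x.2 ∧ x.1 - x.2 ≤ b + 1 ∧ -(a:ℤ) ≤ y.1 - y.2 ∧ y.1 - y.2 ≤ b + 1 ∧
    ¬ (0 ≤ x.1 + x.2 ∧ 0 ≤ y.1 + y.2 ∧
      ((x.1 - x.2 ≤ 0 ∧ 0 < y.1 - y.2) ∨ (y.1 - y.2 ≤ 0 ∧ 0 < x.1 - x.2)))

/-- There is an open path of the slit strip from a vertex of the left bank of the slit
(column `0`, height `≥ 0`) to a vertex of the right side of the strip (column `b+1`). -/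
def Cross (a b : ℕ) : Set Conf :=
  {ω | ∃ x y : ℤ × ℤ, x.1 - x.2 = 0 ∧ 0 ≤ x.1 + x.2 ∧ y.1 - y.2 = b + 1 ∧
    Relation.ReflTransGen (SAdj a b ω) x y}

/-- The layered environment: with `s` the layer of the edge, a horizontal edge is open with
probability `h s` and a vertical edge with probability `1 - h s`; on the right of the slit (base point
of the edge at height `≥ 0` in a column `≥ 1`) `h` is replaced by `g`. -/
def env (h g : ℤ → I) (e : Edge) : I :=
  let x := if 0 ≤ e.1 + e.2.1 ∧ 1 ≤ e.1 - e.2.1 then g (e.1 + e.2.1) else h (e.1 + e.2.1)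
  if e.2.2 then σ x else x

/-- `h` and `g` are arbitrary in the even layers, the layer `2n+1` has the value `1 - h (2n)`; they do
not degenerate in all the three directions to infinity: there are infinitely many layers where they
are in some `[ε, 1 - ε]`. -/
structure Env (h g : ℤ → I) : Prop where
  h_pair : ∀ n : ℤ, h (2 * n + 1) = σ (h (2 * n))
  g_pair : ∀ n : ℤ, g (2 * n + 1) = σ (g (2 * n))
  h_up : ∃ ε : ℝ, 0 < ε ∧ ∃ᶠ n : ℕ in atTop, ε ≤ (h (2 * n) : ℝ) ∧ (h (2 * n) : ℝ) ≤ 1 - ε
  g_up : ∃ ε : ℝ, 0 < ε ∧ ∃ᶠ n : ℕ in atTop, ε ≤ (g (2 * n) : ℝ) ∧ (g (2 * n) : ℝ) ≤ 1 - ε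
  h_down : ∃ ε : ℝ, 0 < ε ∧ ∃ᶠ n : ℕ in atTop, ε ≤ (h (-(2 * n)) : ℝ) ∧ (h (-(2 * n)) : ℝ) ≤ 1 - ε

/-- rising factorial `s (s+1) ⋯ (s+k-1)` -/
noncomputable def rising (s : ℝ) (k : ℕ) : ℝ := ∏ i ∈ Finset.range k, (s + i)

/-- the exact crossing probability: the mass of `{0, …, a}` for the beta-binomial law with parameters
`1/3`, `1/3` on `{0, …, a+b+1}` -/
noncomputable def formula (a b : ℕ) : ℝ :=
  ∑ k ∈ Finset.range (a + 1), ((a + b + 1).choose k : ℝ) * rising (1/3) k *
    rising (1/3) (a + b + 1 - k) / rising (2/3) (a + b + 1)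

/-- Cardy's function: the normalised primitive of `(t(1-t))^(-2/3)` -/
noncomputable def cardy (x : ℝ) : ℝ :=
  (∫ t in (0:ℝ)..x, (t*(1-t))^(-(2:ℝ)/3)) / ∫ t in (0:ℝ)..1, (t*(1-t))^(-(2:ℝ)/3)

/-- the edge of the layer `r` between the columns `j` and `j+1` -/
def edge (j r : ℤ) : Edge :=
  if (r + j) % 2 = 0 then ((r + j) / 2, (r - j) / 2, false)
  else ((r + j + 1) / 2, (r - j - 1) / 2, true)

/-- `1` for an open horizontal edge, `-1` for an open vertical edge, `0` for a closed edge -/
def sgn (ω : Conf) (e : Edge) : ℤ := if ω e = true then (if e.2.2 = true then -1 else 1) else 0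

/-- the columns of the three parts of the slit strip: `0` is the part below the tip of the slit, `1`
and `2` are the parts on the left and on the right of the slit -/
noncomputable def cols (a b : ℕ) (l : Fin 3) : Finset ℤ :=
  if l = 0 then Finset.Ico (-(a:ℤ)) (b + 1) else if l = 1 then Finset.Ico (-(a:ℤ)) 0
    else Finset.Ico 1 ((b:ℤ) + 1)

/-- the even layer of the `n`-th double layer of the part `l` -/
def layer (l : Fin 3) (n : ℕ) : ℤ := if l = 0 then -(2 * (n:ℤ)) - 2 else 2 * n

/-- The anisotropy of a layer in a part of the strip is the number of its open horizontal edges minus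
the number of its open vertical edges. `D (l, n)` is the anisotropy of the even layer minus the
anisotropy of the odd layer, in the `n`-th double layer of the part `l`. -/
noncomputable def D (a b : ℕ) (ω : Conf) (i : Fin 3 × ℕ) : ℤ :=
  ∑ j ∈ cols a b i.1, (sgn ω (edge j (layer i.1 i.2)) - sgn ω (edge j (layer i.1 i.2 + 1)))

theorem exact_half {a b : ℕ} (ha : Odd a) (hb : Odd b) :
    Pool.Agent.H988R2.Perc.perc.real (Cross a b) = formula a b := by
  have h1 : Pool.Agent.H988R2.Perc.perc.real (Cross a b) =
      Pool.Agent.H988R2.Perc.perc.real (Pool.Agent.H31C.Cross a b) :=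
    Pool.Agent.H863R4.scross_eq ha b
  rw [h1]
  exact Pool.Agent.H31C.exact_cardy a b ha hb

theorem perc_half : Pool.Agent.H988R2.Perc.perc = perc (fun _ => half) := Q292.Env.perc_eq_percP

/-- **Exact universality of Cardy's formula and exact independence.**
(1) In every layered environment the crossing probability of the slit strip is `formula a b`, for all
odd `a`, `b`.
(2) In every layered environment and for all `a, b ≥ 1` Cardy's formula holds with an error of at most
`60 min(a,b)^(-2/3) (a+b)^(-1/3)`.
(3) For critical bond percolation (`p = 1/2`) the crossing event is independent of the whole family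
`D a b`, for all odd `a`, `b`. -/
theorem result :
    (∀ h g : ℤ → I, Env h g → ∀ a b : ℕ, Odd a → Odd b →
      (perc (env h g)).real (Cross a b) = formula a b) ∧
    (∀ h g : ℤ → I, Env h g → ∀ a b : ℕ, 1 ≤ a → 1 ≤ b →
      |(perc (env h g)).real (Cross a b) - cardy ((a:ℝ) / (a + b))| ≤
        60 * ((min a b : ℕ) : ℝ) ^ (-(2/3) : ℝ) * ((a:ℝ) + b) ^ (-(1/3) : ℝ)) ∧
    (∀ a b : ℕ, Odd a → Odd b → ∀ B : Set (Fin 3 × ℕ → ℤ), MeasurableSet B →
      (perc (fun _ => half)).real (Cross a b ∩ {ω | D a b ω ∈ B}) =
        formula a b * (perc (fun _ => half)).real {ω | D a b ω ∈ B}) := by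
  refine ⟨fun h g hn a b ha hb => ?_, fun h g hn a b ha hb => ?_, fun a b ha hb B hB => ?_⟩
  · have hn' : Q292.Env.Nondeg h g := ⟨hn.h_pair, hn.g_pair, hn.h_up, hn.g_up, hn.h_down⟩
    have h1 : (perc (env h g)).real (Cross a b) = Pool.Agent.H988R2.Perc.perc.real (Cross a b) :=
      Q292.Env.scrossP_eq hn' ha hb
    rw [h1, exact_half ha hb]
  · have hn' : Q292.Env.Nondeg h g := ⟨hn.h_pair, hn.g_pair, hn.h_up, hn.g_up, hn.h_down⟩
    exact Q292.Env.cross_rateP hn' ha hb
  · rw [← exact_half ha hb, ← perc_half]
    exact Q292.Env.indep_all ha hb B hB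

end Pool.Agent.Results.MP_35f495_pr.ExactUniversality
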