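import Pool.Agent.W808.KS.All
import Pool.Agent.Q292.Legs.Amp

/-!
Critical bond percolation on the square lattice (rotated by 45 degrees) at the tip of a slit: the
sharp asymptotics, with the value of the constant, of the probability of `m` interfaces (legs) which
start side by side at the tip of a half-infinite slit of thickness `m` in an infinite cylinder.

Each unit square `[j, j+1] × [t, t+1]` contains exactly one of its two diagonals, with probability `1/2`
each, independently (fair coins).  The diagonals through the points `(j, t)` with `j + t` even are the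
open bonds of a square lattice, the other diagonals are its dual-open bonds.
-/

set_option autoImplicit false

namespace Pool.Agent.Results.MP_35f495_pr.LegAmplitudes

open MeasureTheory Filter Topology

/-- Fair coins: one for each unit square with lower left corner `(j, t) ∈ ℤ × ℤ`. -/
noncomputable def coins : Measure (ℤ × ℤ → Bool) :=
  Measure.infinitePi (fun _ => ProbabilityTheory.bernoulliMeasure true false
    ⟨1/2, by norm_num, by norm_num⟩)

/-- The links of the infinite cylinder of circumference `N`, cut at the heights `t < 0` by a slit of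
thickness `m`, on its universal cover `ℤ × ℤ` (only the coins of the squares with `0 ≤ j < N` are
used): the diagonal of the square with lower left corner `(j, t)` rises if the coin of `(j mod N, t)`
shows `false` and falls if it shows `true`; the squares with `t < 0` and `j mod N < m` are removed (the
slit).  On each of the two walls of the slit, the columns `m` and `0` (modulo `N`), the points of the
heights `0, -2, -4, …` are wired together. -/
inductive Link (N m : ℕ) (ω : ℤ × ℤ → Bool) : ℤ × ℤ → ℤ × ℤ → Prop
  | rise (j t : ℤ) : (0 ≤ t ∨ (m : ℤ) ≤ j % N) → ω (j % N, t) = false →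
      Link N m ω (j, t) (j + 1, t + 1)
  | fall (j t : ℤ) : (0 ≤ t ∨ (m : ℤ) ≤ j % N) → ω (j % N, t) = true →
      Link N m ω (j + 1, t) (j, t + 1)
  | wallR (s : ℤ) (i : ℕ) : Link N m ω (s * N + m, -(2 * i : ℤ)) (s * N + m, -(2 * i : ℤ) - 2)
  | wallL (s : ℤ) (i : ℕ) : Link N m ω (s * N, -(2 * i : ℤ)) (s * N, -(2 * i : ℤ) - 2)

/-- Connection by links on the universal cover. -/
def Conn (N m : ℕ) (ω : ℤ × ℤ → Bool) : ℤ × ℤ → ℤ × ℤ → Prop := Relation.EqvGen (Link N m ω)

/-- The `m` leg event: the points `1, …, m - 1` of the tip of the slit are pairwise not connected, not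
connected to the walls (the points `0` and `m`), and each of them is connected to another sheet of the
universal cover.  So the `m` interfaces which start between the points `0, 1, …, m` of the tip all go
around the cylinder. -/
def Legs (N m : ℕ) (ω : ℤ × ℤ → Bool) : Prop :=
  (∀ c d : ℕ, 1 ≤ c → c < m → d ≤ m → c ≠ d → ¬ Conn N m ω ((c : ℤ), 0) ((d : ℤ), 0)) ∧
  (∀ c : ℕ, 1 ≤ c → c < m → ∃ s : ℤ, s ≠ 0 ∧ ∃ d : ℕ, 1 ≤ d ∧ d < m ∧
    Conn N m ω ((c : ℤ), 0) (s * N + d, 0))

/-- The factor `2 ^ ((5 k - 2) / 3) Γ((k + 2) / 3) / (3 ^ k √π)` of the amplitude. -/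
noncomputable def factor (k : ℕ) : ℝ :=
  2 ^ ((5 * (k : ℝ) - 2) / 3) / (3 ^ k * √Real.pi) * Real.Gamma (((k : ℝ) + 2) / 3)

/-- **The amplitudes of the leg probabilities at the tip of a slit.** For every `m ≥ 2`, as the
circumference `N = m + 2 M` of the cylinder tends to infinity, `N ^ (m (m - 1) / 12)` times the
probability of the `m` leg event converges to the product of the factors
`2 ^ ((5 k - 2) / 3) Γ((k + 2) / 3) / (3 ^ k √π)` over all `k < m` of the parity of `m`. -/
theorem result (m : ℕ) (hm : 2 ≤ m) :
    Tendsto (fun M : ℕ => ((m + 2 * M : ℕ) : ℝ) ^ ((m : ℝ) * (m - 1) / 12) *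
      coins.real {ω | Legs (m + 2 * M) m ω}) atTop
      (𝓝 (∏ k ∈ (Finset.range m).filter (fun k => k % 2 = m % 2), factor k)) := by
  have hL : ∀ (N m : ℕ) (ω : ℤ × ℤ → Bool) (x y : ℤ × ℤ),
      Link N m ω x y ↔ Pool.Agent.W808.KS.HS N m ω x y := by
    intro N m ω x y
    constructor
    · intro h
      cases h with
      | rise j t h0 h => exact .rise j t h0 h
      | fall j t h0 h => exact .fall j t h0 h
      | wallR s i => exact .wallL s i
      | wallL s i => exact .wallR s i
    · intro h
      cases h with
      | rise j t h0 h => exact .rise j t h0 h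
      | fall j t h0 h => exact .fall j t h0 h
      | wallL s i => exact .wallR s i
      | wallR s i => exact .wallL s i
  have hLeg : ∀ (N m : ℕ) (ω : ℤ × ℤ → Bool),
      Legs N m ω ↔ Pool.Agent.W808.KS.LegS N m ω := by
    intro N m ω
    have h : Link N m ω = Pool.Agent.W808.KS.HS N m ω := by
      funext x y
      exact propext (hL N m ω x y)
    unfold Legs Pool.Agent.W808.KS.LegS Pool.Agent.W808.HB.Sec Conn
    rw [h]
  have hlaw : ∀ M : ℕ, 1 ≤ M →
      coins.real {ω | Legs (m + 2 * M) m ω} = Pool.Agent.W808.KS.Psl m M := by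
    intro M hM
    have e : {ω | Legs (m + 2 * M) m ω} = {ω | Pool.Agent.W808.KS.LegS (m + 2 * M) m ω} := by
      ext ω
      exact hLeg _ _ ω
    rw [e]
    exact Pool.Agent.W808.KS.a_LAW m M hm hM
  have hprod : ∏ k ∈ (Finset.range m).filter (fun k => k % 2 = m % 2), factor k =
      ∏ i ∈ Finset.range (m / 2), Q292.Legs.amp (m % 2 + 2 * i) := by
    symm
    refine Finset.prod_bij (fun i _ => m % 2 + 2 * i) ?_ ?_ ?_ ?_
    · intro i hi
      rw [Finset.mem_range] at hi
      rw [Finset.mem_filter, Finset.mem_range]
      omega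
    · intro i _ j _ h
      omega
    · intro k hk
      rw [Finset.mem_filter, Finset.mem_range] at hk
      exact ⟨k / 2, by rw [Finset.mem_range]; omega, by omega⟩
    · intro i _
      rfl
  rw [hprod, ← tendsto_add_atTop_iff_nat 1]
  refine (Q292.Legs.main m).congr fun M => ?_
  rw [hlaw (M + 1) (by omega)]

end Pool.Agent.Results.MP_35f495_pr.LegAmplitudes
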