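import Pool.Agent.H31C.Main
import Pool.Agent.Q292.CFS.Lim

/-!
# The exact rate of convergence in Cardy's formula for the slit strips

Critical bond percolation on `ℤ²` (`p = 1/2`) in the strips with a slit. Cardy's formula is the limit
of the crossing probabilities when the widths tend to infinity. We determine the first order term of
the difference: it is of the exact order `1/N`, `N` the width in lattice units, for every cross-ratio
`x ≠ 1/2`, and it is removed by a shift of the walls by `2/3` of a lattice unit, after which the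
formula holds with an error of order `N^(-2)`, uniformly up to the degenerate cross-ratios.

Coordinates: the column of the vertex `(u,v)` of `ℤ²` is `u - v`, its height is `u + v` (rotation by
45 degrees).
-/

set_option autoImplicit false

namespace Pool.Agent.Results.MP_35f495_pr.SharpRateInCardy

open MeasureTheory Filter Topology Set

/-- edges of `ℤ²`: `(u,v,false)` joins `(u,v)` and `(u+1,v)`; `(u,v,true)` joins `(u,v)` and
`(u,v+1)`. -/
abbrev Edge := ℤ × ℤ × Bool

/-- configurations (`true` = open) -/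
abbrev Conf := Edge → Bool

/-- `x` and `y` are the two ends of an open edge -/
def OpenAdj (ω : Conf) (x y : ℤ × ℤ) : Prop :=
  (y = (x.1 + 1, x.2) ∧ ω (x.1, x.2, false) = true) ∨
  (x = (y.1 + 1, y.2) ∧ ω (y.1, y.2, false) = true) ∨
  (y = (x.1, x.2 + 1) ∧ ω (x.1, x.2, true) = true) ∨
  (x = (y.1, y.2 + 1) ∧ ω (y.1, y.2, true) = true)

/-- bond percolation at `p = 1/2`: independent fair coins on the edges -/
noncomputable def perc : Measure Conf :=
  Measure.infinitePi (fun _ : Edge => (PMF.uniformOfFintype Bool).toMeasure)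

/-- The column of the vertex `(u,v)` is `u - v`, its height is `u + v`. Open edges of the slit
strip: both ends have their column in `[-a, b+1]`; the edges between the columns `0` and `1` with
both ends at height `≥ 0` (those which cross the slit) are removed. -/
def SAdj (a b : ℕ) (ω : Conf) (x y : ℤ × ℤ) : Prop :=
  OpenAdj ω x y ∧ -(a:ℤ) ≤ x.1 - x.2 ∧ x.1 - x.2 ≤ b + 1 ∧ -(a:ℤ) ≤ y.1 - y.2 ∧ y.1 - y.2 ≤ b + 1 ∧
    ¬ (0 ≤ x.1 + x.2 ∧ 0 ≤ y.1 + y.2 ∧
      ((x.1 - x.2 ≤ 0 ∧ 0 < y.1 - y.2) ∨ (y.1 - y.2 ≤ 0 ∧ 0 < x.1 - x.2)))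

/-- There is an open path of the slit strip from a vertex of the left bank of the slit
(column `0`, height `≥ 0`) to a vertex of the right side of the strip (column `b+1`). -/
def Cross (a b : ℕ) : Set Conf :=
  {ω | ∃ x y : ℤ × ℤ, x.1 - x.2 = 0 ∧ 0 ≤ x.1 + x.2 ∧ y.1 - y.2 = b + 1 ∧
    Relation.ReflTransGen (SAdj a b ω) x y}

/-- the mass of the density `(t(1-t))^(-2/3)` on `[0,1]` -/
noncomputable def mass : ℝ := ∫ t in (0:ℝ)..1, (t*(1-t))^(-(2:ℝ)/3)

/-- Cardy's function: the normalised primitive of `(t(1-t))^(-2/3)` -/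
noncomputable def cardy (x : ℝ) : ℝ := (∫ t in (0:ℝ)..x, (t*(1-t))^(-(2:ℝ)/3)) / mass

theorem gd_eq (t : ℝ) : (t * (1 - t)) ^ (-(2:ℝ)/3) = Pool.Agent.H757R2.CardyLimit.gd t := by
  unfold Pool.Agent.H757R2.CardyLimit.gd
  congr 1
  ring

theorem mass_eq : mass = Pool.Agent.H980R4.Rate.BB := by
  unfold mass Pool.Agent.H980R4.Rate.BB
  simp_rw [gd_eq]

theorem cardy_eq (x : ℝ) : cardy x = Pool.Agent.H980R4.Rate.F x := by
  unfold cardy Pool.Agent.H980R4.Rate.F
  rw [mass_eq]
  simp_rw [gd_eq]

theorem cross_eq {a b : ℕ} (ha : Odd a) (hb : Odd b) :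
    perc.real (Cross a b) = Pool.Agent.H980R4.Rate.S a (a + b + 1) := by
  have h1 : perc.real (Cross a b) = Pool.Agent.H988R2.Perc.perc.real (Pool.Agent.H31C.Cross a b) :=
    Pool.Agent.H863R4.scross_eq ha b
  rw [h1]
  exact Pool.Agent.H31C.exact_cardy a b ha hb

/-- **The exact rate of convergence in Cardy's formula.**
(1) For all odd `a`, `b` the crossing probability of the slit strip is given by Cardy's formula at the
corrected cross-ratio `(a + 2/3) / (a + b + 4/3)` with an error of at most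
`(3/2) min(a,b)^(-5/3) (a+b)^(-1/3)`.
(2) For `N = a + b → ∞` with `a / N → x`, `0 < x < 1`, `N` times the difference of the crossing
probability and Cardy's value `cardy (a / N)` tends to `(2/3) (1 - 2x) (x(1-x))^(-2/3) / mass`,
that is `(2/3) (1 - 2x)` times the derivative of Cardy's function. -/
theorem result :
    (∀ a b : ℕ, Odd a → Odd b →
      |perc.real (Cross a b) - cardy (((a:ℝ) + 2/3) / (a + b + 4/3))| ≤
        3/2 * (((min a b : ℕ) : ℝ) ^ (-(5/3) : ℝ) * ((a:ℝ) + b) ^ (-(1/3) : ℝ))) ∧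
    (∀ (x : ℝ) (a b : ℕ → ℕ), 0 < x → x < 1 → (∀ n, Odd (a n)) → (∀ n, Odd (b n)) →
      Tendsto (fun n => a n + b n) atTop atTop →
      Tendsto (fun n => (a n : ℝ) / (a n + b n)) atTop (𝓝 x) →
      Tendsto (fun n => ((a n : ℝ) + b n) *
        (perc.real (Cross (a n) (b n)) - cardy ((a n : ℝ) / (a n + b n)))) atTop
        (𝓝 (2/3 * (1 - 2*x) * ((x*(1-x))^(-(2:ℝ)/3) / mass)))) := by
  refine ⟨fun a b ha hb => ?_, fun x a b h0 h1 ha hb hN hx => ?_⟩
  · rw [cross_eq ha hb, cardy_eq]
    exact Q292.CFS.corrected ha.pos hb.pos (ha.add_odd hb)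
  · have h := Q292.CFS.first_order x a b h0 h1 (fun n => (ha n).pos) (fun n => (hb n).pos)
      (fun n => (ha n).add_odd (hb n)) hN hx
    rw [gd_eq, mass_eq]
    refine h.congr (fun n => ?_)
    rw [cross_eq (ha n) (hb n), cardy_eq]

end Pool.Agent.Results.MP_35f495_pr.SharpRateInCardy
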